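import Pool.Agent.BEL.StmtsP
import Pool.Agent.Helper91_BE01.EMB

/-!
# Squad BEL, row LPE (helper77): the embedding in `L^p`
-/

namespace Pool.Agent.BEL.H77

open Set Filter Topology MeasureTheory
open scoped InnerProductSpace ENNReal
open Pool.Agent.BE01
open Pool.Agent.BE01.H91 (TT ge ge_dense gr gr_ae tst_grad_memLp)

noncomputable section

variable {d : ℕ}

theorem lpe (sob : SobStmt) : LpeStmt := by
  intro d Ω ι p hd hΩ hι hp hdp
  obtain ⟨C, hC, hS⟩ := sob d Ω p hd hΩ hp hdp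
  refine ⟨C, hC, fun G => ?_⟩
  have hb : ∀ ψ : TT Ω, eLpNorm (ι (ge Ω ψ)) (ENNReal.ofReal p) (mu Ω) ≤
      ENNReal.ofReal (C * ‖ge Ω ψ‖) := by
    intro ψ
    have h1 : ι (ge Ω ψ) =ᵐ[mu Ω] ψ.1 := hι ψ.1 ψ.2 (ge Ω ψ) (gr_ae Ω ψ)
    rw [eLpNorm_congr_ae h1, ENNReal.ofReal_mul hC.le]
    refine (hS ψ.1 ψ.2).trans (mul_le_mul_right ?_ _)
    have h2 : ‖ge Ω ψ‖ = ‖(tst_grad_memLp ψ.2 2).toLp (gradient ψ.1)‖ := rfl
    rw [h2, Lp.norm_toLp, ENNReal.ofReal_toReal (tst_grad_memLp ψ.2 2).eLpNorm_ne_top]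
  have hG : G ∈ closure (range (ge Ω)) := ge_dense Ω G
  obtain ⟨y, hy, hyG⟩ := mem_closure_iff_seq_limit.1 hG
  choose x hx using hy
  have hιy : Tendsto (fun n => ι (y n)) atTop (𝓝 (ι G)) := (ι.continuous.tendsto G).comp hyG
  obtain ⟨ns, hns, hae⟩ := (tendstoInMeasure_of_tendsto_Lp hιy).exists_seq_tendsto_ae
  have h1 := Lp.eLpNorm_lim_le_liminf_eLpNorm (p := ENNReal.ofReal p)
    (fun n => Lp.aestronglyMeasurable (ι (y (ns n)))) _ hae
  refine h1.trans ?_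
  have h2 : Tendsto (fun n => ENNReal.ofReal (C * ‖y (ns n)‖)) atTop
      (𝓝 (ENNReal.ofReal (C * ‖G‖))) := by
    refine (ENNReal.continuous_ofReal.tendsto _).comp ?_
    exact ((hyG.norm.const_mul C).comp hns.tendsto_atTop)
  rw [← h2.liminf_eq]
  refine liminf_le_liminf (Eventually.of_forall fun n => ?_)
  show eLpNorm (ι (y (ns n))) (ENNReal.ofReal p) (mu Ω) ≤ _
  rw [← hx (ns n)]
  exact hb (x (ns n))

end

end Pool.Agent.BEL.H77
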