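import Pool.Agent.BEL.StmtsD

/-!
# Squad BEL, row COR (helper77): from the interface `Inp` to `Cor`
-/

namespace Pool.Agent.BEL.H77

open MeasureTheory Filter Topology Set
open scoped InnerProductSpace ENNReal

noncomputable section

variable {X : Type} [MeasurableSpace X] {μ : Measure X}

lemma coe_sum (b : HilbertBasis ℕ ℝ (Lp ℝ 2 μ)) (c : ℕ → ℝ) (n : ℕ) :
    ((∑ k ∈ Finset.range n, c k • b k : Lp ℝ 2 μ) : X → ℝ) =ᵐ[μ]
      fun x => ∑ k ∈ Finset.range n, c k * b k x := by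
  induction n with
  | zero =>
    simp only [Finset.range_zero, Finset.sum_empty]
    exact Lp.coeFn_zero _ _ _
  | succ n ih =>
    rw [Finset.sum_range_succ]
    filter_upwards [ih, Lp.coeFn_add (∑ k ∈ Finset.range n, c k • b k) (c n • b n),
      Lp.coeFn_smul (c n) (b n)] with x h1 h2 h3
    rw [h2, Pi.add_apply, h1, h3, Pi.smul_apply, smul_eq_mul, Finset.sum_range_succ]

lemma ml_ae {f : X → ℝ} (hf : Measurable f) {M : ℝ} (hM : ∀ x, |f x| ≤ M) (v : Lp ℝ 2 μ) :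
    ml μ f v =ᵐ[μ] fun x => f x * v x := by
  have h : MemLp (fun x => f x * v x) 2 μ := by
    refine MemLp.of_le_mul (c := M) (Lp.memLp v)
      (hf.aestronglyMeasurable.mul (Lp.aestronglyMeasurable v)) (Eventually.of_forall fun x => ?_)
    rw [norm_mul]
    exact mul_le_mul_of_nonneg_right (hM x) (norm_nonneg _)
  unfold ml
  rw [dif_pos h]
  exact h.coeFn_toLp

lemma PJ_apply {κ : Type} {H : Type} [NormedAddCommGroup H] [InnerProductSpace ℝ H]
    (b : HilbertBasis κ ℝ H) (J : Finset κ) (y : H) : PJ b J y = ∑ j ∈ J, ⟪b j, y⟫_ℝ • b j := by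
  unfold PJ
  rw [ContinuousLinearMap.sum_apply]
  rfl

lemma pyth {κ : Type} {H : Type} [NormedAddCommGroup H] [InnerProductSpace ℝ H]
    (b : HilbertBasis κ ℝ H) (J : Finset κ) (y : H) :
    ‖y - PJ b J y‖ ^ 2 = ‖y‖ ^ 2 - ∑ j ∈ J, ⟪b j, y⟫_ℝ ^ 2 := by
  have h1 : ⟪y, PJ b J y⟫_ℝ = ∑ j ∈ J, ⟪b j, y⟫_ℝ ^ 2 := by
    rw [PJ_apply, inner_sum]
    refine Finset.sum_congr rfl fun j _ => ?_
    rw [real_inner_smul_right, real_inner_comm (b j) y, sq]
  have h2 : ‖PJ b J y‖ ^ 2 = ∑ j ∈ J, ⟪b j, y⟫_ℝ ^ 2 := by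
    rw [← real_inner_self_eq_norm_sq]
    conv_lhs => rw [PJ_apply, sum_inner]
    refine Finset.sum_congr rfl fun j hj => ?_
    rw [real_inner_smul_left, b.orthonormal.inner_right_sum _ hj, sq]
  rw [norm_sub_sq_real, h1, h2]
  ring

lemma norm_sq_int (y : Lp ℝ 2 μ) : ‖y‖ ^ 2 = ∫ x, (y x) ^ 2 ∂μ := by
  rw [← real_inner_self_eq_norm_sq, L2.inner_def]
  refine integral_congr_ae (Eventually.of_forall fun x => ?_)
  show y x * y x = y x ^ 2
  ring

theorem cor (hg : GrpStmt) (hr : RinStmt) : CorStmt := by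
  intro X _ μ _ a al b om ha hal hI
  have hw0 : ∃ w0 > 0, ∀ j, w0 ≤ om j := ⟨om 0, hI.pos 0, fun j => hI.mono (Nat.zero_le j)⟩
  obtain ⟨R, hR⟩ := hr (Lp ℝ 2 μ) ℕ b om hw0
  obtain ⟨W, hW⟩ := hg (Lp ℝ 2 μ) ℕ b om
  obtain ⟨s, hs, hs3⟩ := hI.i3
  refine ⟨R, W, fun n => Finset.range (s n), ⟨ha, hal, hw0, hW, hR, ?_, ?_, ?_, ?_, ?_⟩⟩
  · simp only [Finset.card_range]
    exact hs.tendsto_atTop
  · obtain ⟨C, hC⟩ := hI.i1
    refine ⟨max C 1, lt_of_lt_of_le one_pos (le_max_right _ _), fun n => ?_⟩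
    filter_upwards [hC (s n)] with x hx
    rw [Finset.card_range]
    exact hx.trans (mul_le_mul_of_nonneg_right (le_max_left _ _) (Nat.cast_nonneg _))
  · intro j
    filter_upwards [hs.tendsto_atTop.eventually_gt_atTop j] with n hn
    exact Finset.mem_range.2 hn
  · intro f hf hfb
    obtain ⟨M, hM⟩ := hfb
    have h1 := hs3 f hf ⟨M, hM⟩
    refine h1.congr fun n => ?_
    rw [Finset.card_range]
    congr 1
    refine Finset.sum_congr rfl fun k _ => ?_
    unfold lk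
    rw [pyth, norm_sq_int]
    have hae := ml_ae (μ := μ) hf hM (b k)
    have e1 : ∫ x, (ml μ f (b k) x) ^ 2 ∂μ = ∫ x, (f x * b k x) ^ 2 ∂μ := by
      refine integral_congr_ae ?_
      filter_upwards [hae] with x hx
      rw [hx]
    rw [e1]
    congr 1
    refine Finset.sum_congr rfl fun l _ => ?_
    rw [L2.inner_def]
    congr 1
    refine integral_congr_ae ?_
    filter_upwards [hae] with x hx
    show f x * b k x * b l x = ml μ f (b k) x * b l x
    rw [hx]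
  · obtain ⟨p, hp, C, hC⟩ := hI.i4
    have hp0 : 0 < p := by linarith
    refine ⟨p, hp, |C| + 1, by positivity, fun z => ?_⟩
    have hC0 : 0 ≤ |C| + 1 := by positivity
    set c : ℕ → ℝ := fun k => ⟪b k, z⟫_ℝ / om k with hc
    have hsum : HasSum (fun k => c k • b k) (R z) := by
      have h := b.hasSum_repr (R z)
      refine h.congr_fun ?_ |> id
      intro k
      simp only [hc]
      rw [HilbertBasis.repr_apply_apply, hR z k]
    have ht : Tendsto (fun n => ∑ k ∈ Finset.range n, c k • b k) atTop (𝓝 (R z)) :=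
      hsum.tendsto_sum_nat
    obtain ⟨ns, hns, hae⟩ := (tendstoInMeasure_of_tendsto_Lp ht).exists_seq_tendsto_ae
    have h1 := Lp.eLpNorm_lim_le_liminf_eLpNorm (p := ENNReal.ofReal p)
      (fun n => Lp.aestronglyMeasurable (∑ k ∈ Finset.range (ns n), c k • b k)) _ hae
    have hz : ∀ n, ∑ k ∈ Finset.range n, om k ^ 2 * c k ^ 2 ≤ ‖z‖ ^ 2 := by
      intro n
      have e2 : ∀ k, om k ^ 2 * c k ^ 2 = ‖⟪b k, z⟫_ℝ‖ ^ 2 := by
        intro k
        simp only [hc]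
        have := (hI.pos k).ne'
        rw [Real.norm_eq_abs, sq_abs]
        field_simp
      rw [Finset.sum_congr rfl fun k _ => e2 k]
      exact b.orthonormal.sum_inner_products_le z
    have h2 : ∀ n, eLpNorm (∑ k ∈ Finset.range n, c k • b k : Lp ℝ 2 μ) (ENNReal.ofReal p) μ ≤
        ENNReal.ofReal ((|C| + 1) * ‖z‖) := by
      intro n
      rw [eLpNorm_congr_ae (coe_sum b c n)]
      refine (hC n c).trans (ENNReal.ofReal_le_ofReal ?_)
      have h3 : Real.sqrt (∑ k ∈ Finset.range n, om k ^ 2 * c k ^ 2) ≤ ‖z‖ := by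
        rw [← Real.sqrt_sq (norm_nonneg z)]
        exact Real.sqrt_le_sqrt (hz n)
      have h4 := Real.sqrt_nonneg (∑ k ∈ Finset.range n, om k ^ 2 * c k ^ 2)
      have h5 : C ≤ |C| := le_abs_self C
      calc C * Real.sqrt (∑ k ∈ Finset.range n, om k ^ 2 * c k ^ 2)
          ≤ (|C| + 1) * Real.sqrt (∑ k ∈ Finset.range n, om k ^ 2 * c k ^ 2) :=
            mul_le_mul_of_nonneg_right (by linarith) h4
        _ ≤ (|C| + 1) * ‖z‖ := mul_le_mul_of_nonneg_left h3 hC0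
    have h6 : eLpNorm (R z) (ENNReal.ofReal p) μ ≤ ENNReal.ofReal ((|C| + 1) * ‖z‖) := by
      refine h1.trans ?_
      have h7 : Tendsto (fun _ : ℕ => ENNReal.ofReal ((|C| + 1) * ‖z‖)) atTop
        (𝓝 (ENNReal.ofReal ((|C| + 1) * ‖z‖))) := tendsto_const_nhds
      rw [← h7.liminf_eq]
      exact liminf_le_liminf (Eventually.of_forall fun n => h2 (ns n))
    have hmem : MemLp (R z) (ENNReal.ofReal p) μ :=
      ⟨Lp.aestronglyMeasurable _, lt_of_le_of_lt h6 ENNReal.ofReal_lt_top⟩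
    refine ⟨hmem, ?_⟩
    have h8 := hmem.eLpNorm_eq_integral_rpow_norm (by simp [hp0]) ENNReal.ofReal_ne_top
    rw [h8, ENNReal.toReal_ofReal hp0.le] at h6
    have h9 : 0 ≤ (|C| + 1) * ‖z‖ := by positivity
    have hint0 : 0 ≤ ∫ x, ‖(R z) x‖ ^ p ∂μ :=
      integral_nonneg fun x => Real.rpow_nonneg (norm_nonneg _) _
    have h10 : (∫ x, ‖(R z) x‖ ^ p ∂μ) ^ p⁻¹ ≤ (|C| + 1) * ‖z‖ :=
      (ENNReal.ofReal_le_ofReal_iff h9).1 h6
    have h11 := Real.rpow_le_rpow (Real.rpow_nonneg hint0 _) h10 hp0.le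
    rw [← Real.rpow_mul hint0, inv_mul_cancel₀ hp0.ne', Real.rpow_one] at h11
    exact h11

end

end Pool.Agent.BEL.H77
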